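import Mathlib
import Pool.Agent.X317.MK.Fi

/-!
# MP_093cae_al: global dimension of rational incomplete Mackey functors
-/

set_option autoImplicit false
set_option linter.all false

namespace Pool.Agent.Results.MP_093cae_al.MonotoneAndZero

open Pool.Agent.X317.MK

/-- For every finite group, the global dimension of the rational `O`-Mackey functors is monotone in
the transfer system `O`, and it is zero exactly for the complete transfer system. -/
theorem result (G : Type) [Group G] [Finite G] :
    (∀ O O' : TS G, (∀ K H, O.rel K H → O'.rel K H) → gldim O' ≤ gldim O) ∧
      (∀ O : TS G, gldim O = 0 ↔ ∀ K H : Subgroup G, K ≤ H → O.rel K H) :=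
  ⟨fun _ _ hO => gldim_mono hO, fun O => gldim_zero_iff O⟩

end Pool.Agent.Results.MP_093cae_al.MonotoneAndZero
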